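import Pool.Agent.N966.HB.Loc2

/-!
# Genus and heights of `K = k(x, θ)`
-/

set_option autoImplicit false
set_option linter.overlappingInstances false

open Polynomial FF Pool.Agent.W603.LV IntermediateField

namespace Pool.Agent.N966.HB

variable {k K : Type} [Field k] [Field K] [Algebra k K]

theorem adjoin_two (x θ : K) (hgen : IntermediateField.adjoin k {x, θ} = ⊤) :
    IntermediateField.adjoin k⟮x⟯ {θ} = ⊤ := by
  have h1 : (IntermediateField.adjoin k⟮x⟯ {θ}).restrictScalars k = ⊤ := by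
    rw [IntermediateField.adjoin_adjoin_left, Set.singleton_union, hgen]
  rw [eq_top_iff]
  intro f _
  have h2 : f ∈ (IntermediateField.adjoin k⟮x⟯ {θ}).restrictScalars k := by rw [h1]; trivial
  exact h2

/-- the degree of the field -/
theorem fin_bound {x θ : K} (hx : Transcendental k x)
    (hgen : IntermediateField.adjoin k {x, θ} = ⊤) {G : k[X][X]} (hG0 : G ≠ 0)
    (hG : E2 x θ G = 0) :
    FiniteDimensional k⟮x⟯ K ∧ Module.finrank k⟮x⟯ K ≤ G.natDegree := by
  have hinj : Function.Injective (aeval x : k[X] →ₐ[k] K) := transcendental_iff_injective.1 hx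
  have hinj' : Function.Injective
      ((aeval (IntermediateField.AdjoinSimple.gen k x) : k[X] →ₐ[k] k⟮x⟯) : k[X] →+* k⟮x⟯) := by
    intro p q hpq
    apply hinj
    have h1 := congrArg (algebraMap k⟮x⟯ K) hpq
    change algebraMap k⟮x⟯ K (aeval (IntermediateField.AdjoinSimple.gen k x) p) =
      algebraMap k⟮x⟯ K (aeval (IntermediateField.AdjoinSimple.gen k x) q) at h1
    rw [← aeval_algebraMap_apply, ← aeval_algebraMap_apply,
      IntermediateField.AdjoinSimple.algebraMap_gen] at h1
    exact h1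
  set p : k⟮x⟯[X] := G.map
    ((aeval (IntermediateField.AdjoinSimple.gen k x) : k[X] →ₐ[k] k⟮x⟯) : k[X] →+* k⟮x⟯) with hp
  have hp0 : p ≠ 0 := (Polynomial.map_ne_zero_iff hinj').2 hG0
  have hpθ : aeval θ p = 0 := by
    rw [← hG, E2_apply, hp, aeval_def, eval₂_map]
    congr 1
    ext a
    · simp
    · simp
  have halg : IsAlgebraic k⟮x⟯ θ := ⟨p, hp0, hpθ⟩
  have hint : IsIntegral k⟮x⟯ θ := halg.isIntegral
  have htop := adjoin_two x θ hgen
  have h1 : FiniteDimensional k⟮x⟯ (IntermediateField.adjoin k⟮x⟯ {θ}) :=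
    IntermediateField.adjoin.finiteDimensional hint
  have h2 := IntermediateField.adjoin.finrank hint
  rw [htop] at h1 h2
  have h3 : FiniteDimensional k⟮x⟯ K :=
    IntermediateField.topEquiv.toLinearEquiv.finiteDimensional
  refine ⟨h3, ?_⟩
  have h4 : Module.finrank k⟮x⟯ (⊤ : IntermediateField k⟮x⟯ K) = Module.finrank k⟮x⟯ K :=
    IntermediateField.topEquiv.toLinearEquiv.finrank_eq
  rw [← h4, h2]
  have h5 : (minpoly k⟮x⟯ θ).natDegree ≤ p.natDegree :=
    Polynomial.natDegree_le_of_dvd (minpoly.dvd _ _ hpθ) hp0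
  exact h5.trans natDegree_map_le

theorem hgt_algebraic [CharZero k] [IsFF k K] {f : K} (hf : IsAlgebraic k f) : hgt k f = 0 := by
  rw [hgt_finset (k := k) f ∅]
  · rfl
  · intro P hP
    exact absurd hf (P.transcendental_of_ord_ne hP)

theorem hgt_eq_finrank [IsAlgClosed k] [CharZero k] [IsFF k K] {f : K} (hf : Transcendental k f) :
    hgt k f = Module.finrank k⟮f⟯ K := by
  classical
  obtain ⟨S, hS, hS2⟩ := poles (k := k) hf
  obtain ⟨T, hT⟩ := exists_supp (k := k) (Finset.univ : Finset (Fin 1)) ![f]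
  have h1 : ∀ P : Place k K, P.ord f ≠ 0 → P ∈ T := fun P => hT 0 (Finset.mem_univ _) P
  rw [hgt_finset f T h1, ← hS2]
  have hST : S ⊆ T := fun P hP => h1 P ((hS P).1 hP).ne
  rw [← Finset.sum_subset hST (f := fun P => max (-P.ord f) 0)]
  · push_cast
    refine Finset.sum_congr rfl fun P hP => ?_
    rw [deg_one, Nat.cast_one, mul_one]
    have := (hS P).1 hP
    omega
  · intro P _ hP
    have : ¬ P.ord f < 0 := fun h => hP ((hS P).2 h)
    omega

/-- the polynomials of bounded degrees satisfied by `x` and `θ` -/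
def Rl (x θ : K) (d n : ℕ) (G : k[X][X]) : Prop :=
  G ≠ 0 ∧ E2 x θ G = 0 ∧ G.natDegree ≤ n ∧ ∀ j, (G.coeff j).natDegree ≤ d

/-- a minimal relation -/
theorem exists_min [CharZero k] {x θ : K} (hx : Transcendental k x) {C0 : ℕ} {G0 : k[X][X]}
    (h0 : Rl x θ C0 C0 G0) : ∃ G : k[X][X], Rl x θ C0 C0 G ∧ 1 ≤ G.natDegree ∧
      E2 x θ (derivative G) ≠ 0 ∧ ∀ c : k, G.map (evalRingHom c) ≠ 0 := by
  classical
  have hinj : Function.Injective (aeval x : k[X] →ₐ[k] K) := transcendental_iff_injective.1 hx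
  have hex : ∃ n, ∃ G : k[X][X], Rl x θ C0 n G := ⟨C0, G0, h0⟩
  obtain ⟨G1, hG1⟩ := Nat.find_spec hex
  have hmin1 : ∀ n G, Rl x θ C0 n G → Nat.find hex ≤ n := fun n G h => Nat.find_min' hex ⟨G, h⟩
  have hn : Nat.find hex ≤ C0 := hmin1 _ _ h0
  obtain ⟨n, hnn⟩ : ∃ n, n = Nat.find hex := ⟨_, rfl⟩
  rw [← hnn] at hG1 hmin1 hn
  have hex2 : ∃ d, ∃ G : k[X][X], Rl x θ d n G := ⟨C0, G1, hG1⟩
  obtain ⟨G, hG⟩ := Nat.find_spec hex2
  have hmin2 : ∀ d G, Rl x θ d n G → Nat.find hex2 ≤ d := fun d G h => Nat.find_min' hex2 ⟨G, h⟩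
  have hd : Nat.find hex2 ≤ C0 := hmin2 _ _ hG1
  obtain ⟨d, hdd⟩ : ∃ d, d = Nat.find hex2 := ⟨_, rfl⟩
  rw [← hdd] at hG hmin2 hd
  obtain ⟨hGne, hG0, hGn, hGd⟩ := hG
  have hconst : ∀ H : k[X][X], H.natDegree = 0 → E2 x θ H = 0 → H = 0 := by
    intro H h1 h2
    obtain ⟨a, rfl⟩ : ∃ a, H = Polynomial.C a := ⟨_, eq_C_of_natDegree_eq_zero h1⟩
    rw [E2_apply, eval₂_C] at h2
    have h3 : a = 0 := hinj (h2.trans (map_zero (aeval x : k[X] →ₐ[k] K)).symm)
    rw [h3, Polynomial.C_0]
  have hn1 : 1 ≤ G.natDegree := by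
    by_contra hlt
    exact hGne (hconst G (by omega) hG0)
  refine ⟨G, ⟨hGne, hG0, hGn.trans hn, fun j => (hGd j).trans hd⟩, hn1, ?_, ?_⟩
  · intro h1
    have h2 : derivative G ≠ 0 := by
      intro h3
      have h4 := derivative_eq_zero.1 h3
      omega
    have h3 : (derivative G).natDegree ≤ n - 1 := (natDegree_derivative_le G).trans (by omega)
    have h4 := hmin1 (n - 1) (derivative G) ⟨h2, h1, h3, fun j => by
      rw [coeff_derivative]
      refine natDegree_mul_le.trans ?_
      have h5 : ((j : k[X]) + 1).natDegree = 0 := by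
        have : ((j : k[X]) + 1) = Polynomial.C ((j : k) + 1) := by
          rw [Polynomial.C_add, Polynomial.C_1, map_natCast]
        rw [this, natDegree_C]
      rw [h5, add_zero]
      exact (hGd _).trans hd⟩
    omega
  · intro c hc
    have h1 : Polynomial.C (X - Polynomial.C c) ∣ G := by
      rw [Polynomial.C_dvd_iff_dvd_coeff]
      intro i
      rw [dvd_iff_isRoot]
      have h2 := congrArg (fun p => Polynomial.coeff p i) hc
      simp only [coeff_map, coe_evalRingHom, coeff_zero] at h2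
      exact h2
    obtain ⟨H, hH⟩ := h1
    have hH0 : H ≠ 0 := by
      rintro rfl
      rw [mul_zero] at hH
      exact hGne hH
    have hxc : x - algebraMap k K c ≠ 0 := by
      intro h
      rw [sub_eq_zero] at h
      exact hx (h ▸ isAlgebraic_algebraMap c)
    have hH1 : E2 x θ H = 0 := by
      have h2 := hG0
      rw [hH, map_mul, E2_apply x θ (Polynomial.C _), eval₂_C] at h2
      have h3 : ((aeval x : k[X] →ₐ[k] K) : k[X] →+* K) (X - Polynomial.C c) =
          x - algebraMap k K c := by simp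
      rw [h3] at h2
      exact (mul_eq_zero.1 h2).resolve_left hxc
    have hcoef : ∀ j, G.coeff j = (X - Polynomial.C c) * H.coeff j := by
      intro j
      rw [hH, coeff_C_mul]
    have hHn : H.natDegree ≤ n := by
      rw [natDegree_le_iff_coeff_eq_zero]
      intro N hN
      have h2 := hcoef N
      rw [coeff_eq_zero_of_natDegree_lt (by omega)] at h2
      exact (mul_eq_zero.1 h2.symm).resolve_left (X_sub_C_ne_zero c)
    have hHd : ∀ j, H.coeff j = 0 ∨ (H.coeff j).natDegree + 1 ≤ d := by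
      intro j
      by_cases h2 : H.coeff j = 0
      · exact Or.inl h2
      · right
        have h3 := hGd j
        rw [hcoef j, natDegree_mul (X_sub_C_ne_zero c) h2, natDegree_X_sub_C] at h3
        omega
    have hd1 : 1 ≤ d := by
      by_contra hlt
      apply hH0
      ext1 j
      rw [coeff_zero]
      rcases hHd j with h2 | h2
      · exact h2
      · omega
    have h4 := hmin2 (d - 1) H ⟨hH0, hH1, hHn, fun j => by
      rcases hHd j with h2 | h2
      · rw [h2, natDegree_zero]; omega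
      · omega⟩
    omega

/-- lower bound for the order of a polynomial -/
theorem ord_E2_ge (P : Place k K) {x θ : K} {a n : ℕ} {H : k[X][X]} (hn : H.natDegree ≤ n)
    (hd : ∀ j, (H.coeff j).natDegree ≤ a) :
    Ge P (-(a * max (-P.ord x) 0) - n * max (-P.ord θ) 0) (E2 x θ H) := by
  have hp : ∀ (z : K) (i N : ℕ), i ≤ N → Ge P (-(N * max (-P.ord z) 0)) (z ^ i) := by
    intro z i N hi
    have h1 : Ge P (-(max (-P.ord z) 0)) z := Or.inr (by omega)
    refine (h1.pow i).mono ?_
    have h2 : (i : ℤ) * max (-P.ord z) 0 ≤ N * max (-P.ord z) 0 :=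
      mul_le_mul_of_nonneg_right (by exact_mod_cast hi) (le_max_right _ _)
    linarith
  rw [E2_sum x θ hn]
  refine Ge.sum _ _ fun j hj => ?_
  have hj' : j ≤ n := by rw [Finset.mem_range] at hj; omega
  have h1 : Ge P (-(a * max (-P.ord x) 0)) (aeval x (H.coeff j)) := by
    rw [aeval_eq_sum_range' (n := a + 1) (Nat.lt_succ_of_le (hd j))]
    refine Ge.sum _ _ fun i hi => ?_
    rw [Algebra.smul_def]
    have hi' : i ≤ a := by rw [Finset.mem_range] at hi; omega
    simpa using (Ge.const (P := P) ((H.coeff j).coeff i)).mul (hp x i a hi')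
  have h2 := h1.mul (hp θ j n hj')
  exact h2.mono (by linarith)

theorem canDeg_le [CharZero k] [IsFF k K] [IsAlgClosed k] {x θ : K} (hx : Transcendental k x)
    (hgen : IntermediateField.adjoin k {x, θ} = ⊤) {C0 : ℕ} {G : k[X][X]}
    (hRl : Rl x θ C0 C0 G) (hn1 : 1 ≤ G.natDegree) (hγ : E2 x θ (derivative G) ≠ 0)
    (hGc : ∀ c : k, G.map (evalRingHom c) ≠ 0) :
    canDeg k K ≤ C0 * hgt k θ + C0 * hgt k x := by
  classical
  obtain ⟨hG0, hG, hGn, hGd⟩ := hRl
  obtain ⟨D0, hD0⟩ := exists_der (k := k) (K := K)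
  have h0 := der_ne_zero hD0 hx
  obtain ⟨D, hDd⟩ : ∃ D : Derivation k K K, D = (D0 x)⁻¹ • D0 := ⟨_, rfl⟩
  have hDt : D x = 1 := by
    rw [hDd, Derivation.coe_smul, Pi.smul_apply, smul_eq_mul, inv_mul_cancel₀ h0]
  have hD : D ≠ 0 := by
    rintro h
    rw [h] at hDt
    simp at hDt
  set γ := E2 x θ (derivative G) with hγd
  have hdn : (derivative G).natDegree ≤ C0 - 1 := (natDegree_derivative_le G).trans (by omega)
  have hdd : ∀ j, ((derivative G).coeff j).natDegree ≤ C0 := by
    intro j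
    rw [coeff_derivative]
    refine natDegree_mul_le.trans ?_
    have h5 : ((j : k[X]) + 1).natDegree = 0 := by
      have : ((j : k[X]) + 1) = Polynomial.C ((j : k) + 1) := by
        rw [Polynomial.C_add, Polynomial.C_1, map_natCast]
      rw [this, natDegree_C]
    rw [h5, add_zero]
    exact hGd _
  -- the local inequality
  have hloc : ∀ P : Place k K, - vo P D ≤
      P.ord γ + (C0 * max (-P.ord θ) 0 + C0 * max (-P.ord x) 0) := by
    intro P
    have hlow : -((C0 : ℤ) * max (-P.ord x) 0) - ((C0 - 1 : ℕ) : ℤ) * max (-P.ord θ) 0 ≤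
        P.ord γ := (ord_E2_ge P (x := x) (θ := θ) hdn hdd).resolve_left hγ
    have hCC : ((C0 - 1 : ℕ) : ℤ) * max (-P.ord θ) 0 ≤ (C0 : ℤ) * max (-P.ord θ) 0 :=
      mul_le_mul_of_nonneg_right (by omega) (le_max_right _ _)
    rcases lt_or_ge (P.ord x) 0 with hPx | hPx
    · have h5 := (ord_der P hD hPx.ne).2
      rw [hDt, P.ord_one] at h5
      linarith
    · obtain ⟨c, hc⟩ := exists_const P (Or.inr hPx : Ge P 0 x)
      have h6 : x - algebraMap k K c ≠ 0 := by
        intro h
        rw [sub_eq_zero] at h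
        exact hx (h ▸ isAlgebraic_algebraMap c)
      have h7 := hc.resolve_left h6
      have h8 := (ord_der P hD (f := x - algebraMap k K c) (by omega)).2
      rw [map_sub, hDt, Derivation.map_algebraMap, sub_zero, P.ord_one] at h8
      have hxm : max (-P.ord x) 0 = 0 := max_eq_right (by omega)
      rw [hxm, mul_zero, add_zero]
      by_cases hPθ : Ge P 0 θ
      · obtain ⟨a, ha⟩ := exists_const P hPθ
        have h9 := (loc hx hgen hG P hPθ (c := c) (a := a) (by omega) ha (hGc c)).resolve_left hγ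
        rw [← hγd] at h9
        have h10 : 0 ≤ (C0 : ℤ) * max (-P.ord θ) 0 := mul_nonneg (by positivity) (le_max_right _ _)
        linarith
      · have hθ0 : θ ≠ 0 := fun h => hPθ (Or.inl h)
        have hθn : P.ord θ < 0 := by
          by_contra hcon
          exact hPθ (Or.inr (by omega))
        obtain ⟨hr1, hr2⟩ := E2_reflect (x := x) hθ0 hGn hG
        have hgen' : IntermediateField.adjoin k {x, θ⁻¹} = ⊤ := by
          rw [eq_top_iff, ← hgen, IntermediateField.adjoin_le_iff]
          rintro z (rfl | hz)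
          · exact IntermediateField.subset_adjoin _ _ (by simp)
          · rw [Set.mem_singleton_iff] at hz
            subst hz
            have h1 : z⁻¹ ∈ IntermediateField.adjoin k {x, z⁻¹} :=
              IntermediateField.subset_adjoin _ _ (by simp)
            have h2 := inv_mem h1
            rwa [inv_inv] at h2
        have hi1 : Ge P 1 (θ⁻¹ - algebraMap k K 0) := by
          rw [map_zero, sub_zero]
          exact Or.inr (by rw [P.ord_inv]; omega)
        have hi0 : Ge P 0 θ⁻¹ := Or.inr (by rw [P.ord_inv]; omega)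
        have hne : (reflect C0 G).map (evalRingHom c) ≠ 0 := by
          rw [← Polynomial.reflect_map]
          intro h
          exact hGc c (Polynomial.reflect_eq_zero_iff.1 h)
        have hγ' : E2 x θ⁻¹ (derivative (reflect C0 G)) ≠ 0 := by
          intro h
          rw [h, mul_zero, zero_mul, eq_comm, neg_eq_zero] at hr2
          exact mul_ne_zero hθ0 hγ hr2
        have h9 := (loc hx hgen' hr1 P hi0 (c := c) (a := 0) (by omega) hi1 hne).resolve_left hγ'
        have h10 := congrArg P.ord hr2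
        rw [P.ord_neg, P.ord_mul hθ0 hγ, P.ord_mul (mul_ne_zero (inv_ne_zero hθ0) hγ')
          (pow_ne_zero _ hθ0), P.ord_mul (inv_ne_zero hθ0) hγ', P.ord_inv, P.ord_pow] at h10
        have h11 : max (-P.ord θ) 0 = - P.ord θ := max_eq_left (by omega)
        rw [h11]
        nlinarith
  -- summation
  obtain ⟨T0, hT0⟩ := exists_supp (k := k) (Finset.univ : Finset (Fin 3)) ![x, θ, γ]
  set T : Finset (Place k K) := T0 ∪ (vo_finite hD).toFinset with hT
  have h1 : ∀ P : Place k K, P.ord x ≠ 0 → P ∈ T := fun P hP =>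
    Finset.mem_union_left _ (hT0 0 (Finset.mem_univ _) P hP)
  have h2 : ∀ P : Place k K, P.ord θ ≠ 0 → P ∈ T := fun P hP =>
    Finset.mem_union_left _ (hT0 1 (Finset.mem_univ _) P hP)
  have h3 : ∀ P : Place k K, P.ord γ ≠ 0 → P ∈ T := fun P hP =>
    Finset.mem_union_left _ (hT0 2 (Finset.mem_univ _) P hP)
  have h4 : ∀ P : Place k K, vo P D ≠ 0 → P ∈ T := fun P hP => by simp [hT, hP]
  have h5 := canDeg_finset hD T h4
  have h6 : canDeg k K = ∑ P ∈ T, (- vo P D) := by
    rw [Finset.sum_neg_distrib, h5, neg_neg]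
  rw [h6, hgt_finset θ T h2, hgt_finset x T h1, Finset.mul_sum, Finset.mul_sum,
    ← Finset.sum_add_distrib]
  have h7 := sum_ord_finset (k := k) γ T h3
  calc ∑ P ∈ T, (- vo P D) ≤ ∑ P ∈ T, (P.ord γ + (C0 * max (-P.ord θ) 0 +
        C0 * max (-P.ord x) 0)) := Finset.sum_le_sum fun P _ => hloc P
    _ = _ := by rw [Finset.sum_add_distrib, h7, zero_add]

open Pool.Agent.N741.HB

/-- the polynomial of a table of coefficients -/
noncomputable def plOf (C0 : ℕ) (H : ℕ → ℕ → k) : k[X][X] :=
  ∑ j ∈ Finset.range (C0 + 1), monomial j (∑ i ∈ Finset.range (C0 + 1), monomial i (H i j))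

omit [Field K] [Algebra k K] in
theorem coeff_plOf (C0 : ℕ) (H : ℕ → ℕ → k) (j : ℕ) : (plOf C0 H).coeff j =
    if j ∈ Finset.range (C0 + 1) then ∑ i ∈ Finset.range (C0 + 1), monomial i (H i j) else 0 := by
  unfold plOf
  rw [finsetSum_coeff]
  simp only [coeff_monomial]
  rw [Finset.sum_ite_eq' (Finset.range (C0 + 1)) j]

omit [Field K] [Algebra k K] in
theorem rl_plOf_aux (C0 : ℕ) (H : ℕ → ℕ → k) (j : ℕ) :
    (∑ i ∈ Finset.range (C0 + 1), monomial i (H i j) : k[X]).natDegree ≤ C0 := by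
  refine natDegree_sum_le_of_forall_le _ _ fun i hi => ?_
  refine (natDegree_monomial_le _).trans ?_
  rw [Finset.mem_range] at hi
  omega

theorem rl_plOf {x θ : K} {C0 : ℕ} {H : ℕ → ℕ → k} (hne : ne2 C0 H) (h : ev2 C0 H x θ = 0) :
    Rl x θ C0 C0 (plOf C0 H) := by
  refine ⟨?_, ?_, ?_, ?_⟩
  · intro h0
    obtain ⟨i, hi, j, hj, hij⟩ := hne
    have h1 := congrArg (fun p => (Polynomial.coeff p j).coeff i) h0
    simp only [coeff_plOf, coeff_zero] at h1
    rw [if_pos (by rw [Finset.mem_range]; omega), finsetSum_coeff] at h1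
    simp only [coeff_monomial] at h1
    rw [Finset.sum_ite_eq' (Finset.range (C0 + 1)) i,
      if_pos (by rw [Finset.mem_range]; omega)] at h1
    exact hij h1
  · rw [← h]
    unfold plOf ev2
    rw [map_sum, Finset.sum_comm]
    refine Finset.sum_congr rfl fun j _ => ?_
    rw [E2_monomial, map_sum, Finset.sum_mul]
    refine Finset.sum_congr rfl fun i _ => ?_
    rw [aeval_monomial]
    ring
  · rw [natDegree_le_iff_coeff_eq_zero]
    intro N hN
    rw [coeff_plOf, if_neg (by rw [Finset.mem_range]; omega)]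
  · intro j
    rw [coeff_plOf]
    split_ifs
    · exact rl_plOf_aux C0 H j
    · rw [natDegree_zero]; omega

/-- **Genus and heights of `K = k(x, θ)`.** -/
theorem can : S_can := by
  intro C0 k K _ _ _ _ _ x θ hx hgen H hne hH
  have hRl := rl_plOf hne hH
  obtain ⟨hfin, hle⟩ := fin_bound hx hgen hRl.1 hRl.2.1
  have hFF : IsFF k K := IsFF.of_finite hx hfin
  have hxle : hgt k x ≤ C0 := by
    rw [hgt_eq_finrank hx]
    exact_mod_cast hle.trans hRl.2.2.1
  have hθle : hgt k θ ≤ C0 := by
    by_cases hθ : IsAlgebraic k θ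
    · rw [hgt_algebraic hθ]
      positivity
    · have hθt : Transcendental k θ := hθ
      have hgen' : IntermediateField.adjoin k {θ, x} = ⊤ := by
        rw [Set.pair_comm]
        exact hgen
      have hne' : ne2 C0 (fun i j => H j i) := by
        obtain ⟨i, hi, j, hj, hij⟩ := hne
        exact ⟨j, hj, i, hi, hij⟩
      have hH' : ev2 C0 (fun i j => H j i) θ x = 0 := by
        rw [← hH]
        unfold ev2
        rw [Finset.sum_comm]
        refine Finset.sum_congr rfl fun i _ => Finset.sum_congr rfl fun j _ => ?_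
        ring
      have hRl' := rl_plOf hne' hH'
      obtain ⟨hfin', hle'⟩ := fin_bound hθt hgen' hRl'.1 hRl'.2.1
      rw [hgt_eq_finrank hθt]
      exact_mod_cast hle'.trans hRl'.2.2.1
  refine ⟨hFF, ?_, hxle, hθle⟩
  obtain ⟨G, hGR, hG1, hγ, hGc⟩ := exists_min hx hRl
  have h1 := canDeg_le hx hgen hGR hG1 hγ hGc
  have hC : (0 : ℤ) ≤ C0 := by positivity
  nlinarith

end Pool.Agent.N966.HB
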