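import Pool.Agent.N741.HB.Stm
set_option autoImplicit false

namespace Pool.Agent.N966.HB

/-- a vector in the kernel of an integral matrix is a linear combination of small integral
vectors in the kernel -/
theorem kerAux (M : ℕ) (ι : Type) (a : ι → Fin M → ℤ) (B : ℤ) (hB : 1 ≤ B)
    (ha : ∀ i j, |a i j| ≤ B) (v : Fin M → ℚ) (hv : ∀ i, ∑ j, (a i j : ℚ) * v j = 0) :
    ∃ (k : ℕ) (w : Fin k → Fin M → ℤ) (lam : Fin k → ℚ),
      (∀ l, (∀ i, ∑ j, a i j * w l j = 0) ∧ ∀ j, |w l j| ≤ (M.factorial : ℤ) * B ^ M) ∧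
      ∀ j, v j = ∑ l, lam l * (w l j : ℚ) := by
  classical
  let P : ℕ → Prop := fun ρ => ∃ (r : Fin ρ → ι) (J : Fin ρ → Fin M),
    (Matrix.of fun x y => a (r x) (J y)).det ≠ 0
  have hJinj : ∀ (ρ : ℕ) (r : Fin ρ → ι) (J : Fin ρ → Fin M),
      (Matrix.of fun x y => a (r x) (J y)).det ≠ 0 → Function.Injective J := by
    intro ρ r J h y y' hyy
    by_contra hne
    exact h (Matrix.det_zero_of_column_eq hne fun x => by simp [hyy])
  have hle : ∀ ρ, P ρ → ρ ≤ M := by
    rintro ρ ⟨r, J, h⟩
    simpa using Fintype.card_le_of_injective J (hJinj ρ r J h)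
  have h0 : P 0 := ⟨Fin.elim0, Fin.elim0, by simp⟩
  obtain ⟨ρ, ⟨r, J, hΔ⟩, hmax⟩ : ∃ ρ, P ρ ∧ ¬ P (ρ + 1) := by
    by_contra hcon
    push Not at hcon
    have : ∀ n, P n := fun n => Nat.rec h0 (fun n ih => hcon n ih) n
    have := hle _ (this (M + 1))
    omega
  have hρM : ρ ≤ M := hle ρ ⟨r, J, hΔ⟩
  have hJ := hJinj ρ r J hΔ
  set Δ : ℤ := (Matrix.of fun x y => a (r x) (J y)).det with hΔdef
  -- the cofactors
  let c : Fin M → Fin (ρ + 1) → ℤ := fun j y =>
    (-1) ^ (y : ℕ) * (Matrix.of fun (x y' : Fin ρ) =>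
      a (r x) ((Fin.cons j J : Fin (ρ + 1) → Fin M) (y.succAbove y'))).det
  have hc0 : ∀ j, c j 0 = Δ := by
    intro j
    simp [c, hΔdef]
  have hcrow : ∀ (j : Fin M) (i : ι),
      ∑ y, a i ((Fin.cons j J : Fin (ρ + 1) → Fin M) y) * c j y = 0 := by
    intro j i
    have h1 : (Matrix.of fun (x y : Fin (ρ + 1)) =>
        a ((Fin.cons i r : Fin (ρ + 1) → ι) x) ((Fin.cons j J : Fin (ρ + 1) → Fin M) y)).det = 0 := by
      by_contra hne
      exact hmax ⟨_, _, hne⟩
    rw [Matrix.det_succ_row_zero] at h1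
    rw [← h1]
    refine Finset.sum_congr rfl fun y _ => ?_
    simp only [Matrix.of_apply, Fin.cons_zero, c]
    have : (Matrix.of fun (x y : Fin (ρ + 1)) =>
        a ((Fin.cons i r : Fin (ρ + 1) → ι) x)
          ((Fin.cons j J : Fin (ρ + 1) → Fin M) y)).submatrix Fin.succ y.succAbove =
        Matrix.of fun (x y' : Fin ρ) =>
          a (r x) ((Fin.cons j J : Fin (ρ + 1) → Fin M) (y.succAbove y')) := by
      ext x y'
      simp
    rw [this]
    ring
  have hcbd : ∀ j y, |c j y| ≤ (M.factorial : ℤ) * B ^ M := by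
    intro j y
    have h1 : |(Matrix.of fun (x y' : Fin ρ) =>
      a (r x) ((Fin.cons j J : Fin (ρ + 1) → Fin M) (y.succAbove y'))).det| ≤
        (Nat.factorial (Fintype.card (Fin ρ))) • B ^ (Fintype.card (Fin ρ)) :=
      Matrix.det_le (abv := AbsoluteValue.abs) (x := B) (fun x y' => by
        simp only [Matrix.of_apply]
        exact ha _ _)
    rw [Fintype.card_fin] at h1
    have h2 : |c j y| = |(Matrix.of fun (x y' : Fin ρ) =>
      a (r x) ((Fin.cons j J : Fin (ρ + 1) → Fin M) (y.succAbove y'))).det| := by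
      simp only [c, abs_mul, abs_pow, abs_neg, abs_one, one_pow, one_mul]
    rw [h2]
    refine h1.trans ?_
    rw [nsmul_eq_mul]
    have h3 : ((ρ.factorial : ℕ) : ℤ) ≤ (M.factorial : ℤ) := by
      exact_mod_cast Nat.factorial_le hρM
    have h4 : B ^ ρ ≤ B ^ M := pow_le_pow_right₀ hB hρM
    have h5 : 0 ≤ B ^ ρ := by positivity
    exact mul_le_mul h3 h4 h5 (by positivity)
  -- the vectors
  let w : Fin M → Fin M → ℤ := fun j m =>
    if j ∈ Set.range J then 0 else
      ∑ y, if (Fin.cons j J : Fin (ρ + 1) → Fin M) y = m then c j y else 0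
  have hconsinj : ∀ j, j ∉ Set.range J →
      Function.Injective (Fin.cons j J : Fin (ρ + 1) → Fin M) := by
    intro j hj
    rw [Fin.cons_injective_iff]
    exact ⟨hj, hJ⟩
  have hwker : ∀ j i, ∑ m, a i m * w j m = 0 := by
    intro j i
    by_cases hj : j ∈ Set.range J
    · simp only [w, if_pos hj, mul_zero, Finset.sum_const_zero]
    · simp only [w, if_neg hj]
      refine Eq.trans ?_ (hcrow j i)
      simp_rw [Finset.mul_sum]
      rw [Finset.sum_comm]
      refine Finset.sum_congr rfl fun y _ => ?_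
      rw [Finset.sum_eq_single ((Fin.cons j J : Fin (ρ + 1) → Fin M) y)]
      · rw [if_pos rfl]
      · intro m _ hm
        rw [if_neg (Ne.symm hm), mul_zero]
      · intro h
        exact absurd (Finset.mem_univ _) h
  have hwbd : ∀ j m, |w j m| ≤ (M.factorial : ℤ) * B ^ M := by
    intro j m
    have hpos : (0 : ℤ) ≤ (M.factorial : ℤ) * B ^ M := by positivity
    by_cases hj : j ∈ Set.range J
    · simp only [w, if_pos hj, abs_zero]
      exact hpos
    · simp only [w, if_neg hj]
      by_cases hm : ∃ y, (Fin.cons j J : Fin (ρ + 1) → Fin M) y = m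
      · obtain ⟨y, hy⟩ := hm
        rw [Finset.sum_eq_single y]
        · rw [if_pos hy]
          exact hcbd j y
        · intro y' _ hy'
          rw [if_neg]
          intro h
          exact hy' (hconsinj j hj (h.trans hy.symm))
        · intro h
          exact absurd (Finset.mem_univ _) h
      · push Not at hm
        rw [Finset.sum_eq_zero fun y _ => if_neg (hm y)]
        simpa using hpos
  have hwout : ∀ j m, m ∉ Set.range J → w j m = if j = m then Δ else 0 := by
    intro j m hm
    by_cases hj : j ∈ Set.range J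
    · have : j ≠ m := fun h => hm (h ▸ hj)
      simp only [w, if_pos hj, if_neg this]
    · simp only [w, if_neg hj]
      rw [Fin.sum_univ_succ]
      have h1 : ∀ y : Fin ρ, (if (Fin.cons j J : Fin (ρ + 1) → Fin M) y.succ = m then
          c j y.succ else 0) = 0 := by
        intro y
        rw [Fin.cons_succ, if_neg]
        intro h
        exact hm ⟨y, h⟩
      rw [Finset.sum_eq_zero fun y _ => h1 y, add_zero, Fin.cons_zero, hc0]
  have hΔq : (Δ : ℚ) ≠ 0 := by exact_mod_cast hΔ
  refine ⟨M, w, fun j => v j / Δ, fun l => ⟨hwker l, hwbd l⟩, ?_⟩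
  -- the difference
  let u : Fin M → ℚ := fun m => v m - ∑ l, v l / Δ * (w l m : ℚ)
  have hu0 : ∀ m, m ∉ Set.range J → u m = 0 := by
    intro m hm
    simp only [u]
    rw [Finset.sum_eq_single m]
    · rw [hwout m m hm, if_pos rfl]
      field_simp
      ring
    · intro l _ hl
      rw [hwout l m hm, if_neg hl]
      simp
    · intro h
      exact absurd (Finset.mem_univ _) h
  have huker : ∀ i, ∑ m, (a i m : ℚ) * u m = 0 := by
    intro i
    simp only [u, mul_sub, Finset.sum_sub_distrib]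
    rw [hv i, zero_sub, neg_eq_zero]
    simp_rw [Finset.mul_sum]
    rw [Finset.sum_comm]
    refine Finset.sum_eq_zero fun l _ => ?_
    have h1 : ∑ m, (a i m : ℚ) * (w l m : ℚ) = 0 := by exact_mod_cast hwker l i
    calc ∑ m, (a i m : ℚ) * (v l / Δ * (w l m : ℚ))
        = v l / Δ * ∑ m, (a i m : ℚ) * (w l m : ℚ) := by
          rw [Finset.mul_sum]
          exact Finset.sum_congr rfl fun m _ => by ring
      _ = 0 := by rw [h1, mul_zero]
  have huJ : ∀ y, u (J y) = 0 := by
    have h1 : ((Matrix.of fun x y => a (r x) (J y)).map (Int.cast : ℤ → ℚ)).det ≠ 0 := by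
      have : ((Matrix.of fun x y => a (r x) (J y)).map (Int.cast : ℤ → ℚ)).det = (Δ : ℚ) := by
        rw [hΔdef]
        exact (Int.cast_det _).symm
      rw [this]
      exact hΔq
    have h2 : ((Matrix.of fun x y => a (r x) (J y)).map (Int.cast : ℤ → ℚ)).mulVec
        (fun y => u (J y)) = 0 := by
      ext x
      simp only [Matrix.mulVec, dotProduct, Matrix.map_apply, Matrix.of_apply, Pi.zero_apply]
      refine Eq.trans ?_ (huker (r x))
      have h3 : ∑ m, (a (r x) m : ℚ) * u m = ∑ m ∈ Finset.univ.image J, (a (r x) m : ℚ) * u m := by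
        symm
        apply Finset.sum_subset (Finset.subset_univ _)
        intro m _ hm
        rw [hu0 m, mul_zero]
        intro ⟨y, hy⟩
        exact hm (Finset.mem_image.2 ⟨y, Finset.mem_univ _, hy⟩)
      rw [h3, Finset.sum_image fun y _ y' _ h => hJ h]
    have h4 := Matrix.eq_zero_of_mulVec_eq_zero h1 h2
    intro y
    exact congrFun h4 y
  intro m
  have hum : u m = 0 := by
    by_cases hm : m ∈ Set.range J
    · obtain ⟨y, rfl⟩ := hm
      exact huJ y
    · exact hu0 m hm
  exact sub_eq_zero.1 hum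

theorem ker : Pool.Agent.N741.HB.S_ker := fun M ι a B hB ha v hv =>
  kerAux M ι a B hB ha v hv

end Pool.Agent.N966.HB
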