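import Pool.Agent.N89.HB.Stm

/-!
# Project HB, leaf EXT: extension of homomorphisms along integral extensions
-/

set_option autoImplicit false

namespace Pool.Agent.N966.HB

open Pool.Agent.N89.HB

/-- a homomorphism to an algebraically closed field extends to integral extensions -/
theorem main : S_EXT := by
  intro A B M _ _ _ _ _ _ _ θ
  obtain ⟨P, hP⟩ : ∃ P : Ideal A, P = RingHom.ker θ := ⟨_, rfl⟩
  have hPp : P.IsPrime := by
    rw [hP]
    exact RingHom.ker_isPrime θ
  have hinj : Function.Injective (algebraMap A B) := FaithfulSMul.algebraMap_injective A B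
  obtain ⟨Q, -, hQ, hQP⟩ := Ideal.exists_ideal_over_prime_of_isIntegral (S := B) P ⊥ (by
    rw [← RingHom.ker_eq_comap_bot, (RingHom.injective_iff_ker_eq_bot _).1 hinj]
    exact bot_le)
  have hlo : Q.LiesOver P := ⟨hQP.symm⟩
  let θ' : A ⧸ P →+* M := Ideal.Quotient.lift P θ (fun a ha => by rw [hP] at ha; exact ha)
  have hθ' : Function.Injective θ' := by
    rw [injective_iff_map_eq_zero]
    intro a ha
    obtain ⟨a, rfl⟩ := Ideal.Quotient.mk_surjective a
    have ha' : θ a = 0 := ha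
    rw [Ideal.Quotient.eq_zero_iff_mem, hP]
    exact ha'
  let _ : Algebra (A ⧸ P) M := θ'.toAlgebra
  have h1 : Module.IsTorsionFree (A ⧸ P) M := by
    rw [Module.isTorsionFree_iff_algebraMap_injective]
    exact hθ'
  have h4 : Module.IsTorsionFree (A ⧸ P) (B ⧸ Q) := by
    rw [Module.isTorsionFree_iff_algebraMap_injective]
    exact FaithfulSMul.algebraMap_injective _ _
  have h2 : Algebra.IsIntegral (A ⧸ P) (B ⧸ Q) := inferInstance
  have h3 : Algebra.IsAlgebraic (A ⧸ P) (B ⧸ Q) := inferInstance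
  let Ψ' : B ⧸ Q →ₐ[A ⧸ P] M := IsAlgClosed.lift
  refine ⟨Ψ'.toRingHom.comp (Ideal.Quotient.mk Q), RingHom.ext fun a => ?_⟩
  show Ψ' (algebraMap (A ⧸ P) (B ⧸ Q) (Ideal.Quotient.mk P a)) = θ a
  rw [Ψ'.commutes]
  rfl

end Pool.Agent.N966.HB

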