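import Pool.Agent.N741.HB.Stm

/-!
# The ramification index and the partial derivative: the local inequality

If `K = k(x, θ)` and `G (x, θ) = 0`, then `e_P - 1 ≤ ord_P G_Y (x, θ)` at every place at which `x`
and `θ` are regular.
-/

set_option autoImplicit false

open Polynomial FF Pool.Agent.W603.LV

namespace Pool.Agent.N966.HB

variable {k K : Type} [Field k] [Field K] [Algebra k K]

theorem aeval_mem_adj (s y : K) (q : k[X]) : aeval y q ∈ Algebra.adjoin k {s, y} :=
  Algebra.adjoin_mono (by simp) (aeval_mem_adjoin_singleton k y)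

theorem s_mem_adj (s y : K) : s ∈ Algebra.adjoin k {s, y} := Algebra.subset_adjoin (by simp)

theorem y_mem_adj (s y : K) : y ∈ Algebra.adjoin k {s, y} := Algebra.subset_adjoin (by simp)

/-- elements of the algebra generated by two elements -/
theorem adj_two {s y f : K} (hf : f ∈ Algebra.adjoin k {s, y}) :
    ∃ (q : k[X]) (f' : K), f' ∈ Algebra.adjoin k {s, y} ∧ f = aeval y q + s * f' := by
  induction hf using Algebra.adjoin_induction with
  | mem x hx =>
    rcases hx with rfl | hx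
    · exact ⟨0, 1, one_mem _, by simp⟩
    · rw [Set.mem_singleton_iff] at hx
      subst hx
      exact ⟨X, 0, zero_mem _, by simp⟩
  | algebraMap r => exact ⟨C r, 0, zero_mem _, by simp⟩
  | add x z _ _ hx hz =>
    obtain ⟨q, f, hf, rfl⟩ := hx
    obtain ⟨q', f', hf', rfl⟩ := hz
    exact ⟨q + q', f + f', add_mem hf hf', by rw [map_add]; ring⟩
  | mul x z _ _ hx hz =>
    obtain ⟨q, f, hf, rfl⟩ := hx
    obtain ⟨q', f', hf', rfl⟩ := hz
    refine ⟨q * q', f * aeval y q' + aeval y q * f' + s * f * f', ?_, by rw [map_mul]; ring⟩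
    exact add_mem (add_mem (mul_mem hf (aeval_mem_adj _ _ _)) (mul_mem (aeval_mem_adj _ _ _) hf'))
      (mul_mem (mul_mem (s_mem_adj _ _) hf) hf')

theorem reg_adj (P : Place k K) {s y f : K} (hs : Ge P 0 s) (hy : Ge P 0 y)
    (hf : f ∈ Algebra.adjoin k {s, y}) : Ge P 0 f := by
  induction hf using Algebra.adjoin_induction with
  | mem x hx =>
    rcases hx with rfl | hx
    · exact hs
    · rw [Set.mem_singleton_iff] at hx
      subst hx
      exact hy
  | algebraMap r => exact Ge.const r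
  | add x z _ _ hx hz => exact hx.add hz
  | mul x z _ _ hx hz => simpa using hx.mul hz

/-- functions of distinct orders are linearly independent -/
theorem linInd_of_ord (P : Place k K) (G : ℤ) {L : ℕ} (t : Fin L → K) (h0 : ∀ i, t i ≠ 0)
    (h : ∀ i, P.ord (t i) = G + (i : ℕ)) : LinearIndependent k t := by
  classical
  rw [Fintype.linearIndependent_iff]
  intro g hg
  by_contra hcon
  push Not at hcon
  have hne : (Finset.univ.filter fun i => g i ≠ 0).Nonempty := by
    obtain ⟨i, hi⟩ := hcon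
    exact ⟨i, by simp [hi]⟩
  obtain ⟨i1, hi1, hmin⟩ := Finset.exists_min_image _ (fun i : Fin L => i) hne
  have hg1 : g i1 ≠ 0 := (Finset.mem_filter.1 hi1).2
  have hsplit : g i1 • t i1 = - ∑ i ∈ Finset.univ.erase i1, g i • t i := by
    rw [← Finset.add_sum_erase _ _ (Finset.mem_univ i1)] at hg
    exact eq_neg_of_add_eq_zero_left hg
  have h1 : Ge P (G + (i1 : ℕ) + 1) (g i1 • t i1) := by
    rw [hsplit]
    refine (Ge.sum _ _ fun i hi => ?_).neg
    by_cases hgi : g i = 0
    · rw [hgi, zero_smul]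
      exact Ge.zero
    · have h2 : i1 ≤ i := hmin i (by simp [hgi])
      have h3 : i1 ≠ i := (Finset.ne_of_mem_erase hi).symm
      have h4 : (i1 : ℕ) < (i : ℕ) := lt_of_le_of_ne h2 fun h => h3 (Fin.ext h)
      rw [Algebra.smul_def]
      have h5 : Ge P (P.ord (t i)) (t i) := Or.inr le_rfl
      have h6 := (Ge.const (P := P) (g i)).mul h5
      refine h6.mono ?_
      rw [h i]
      omega
  have h7 : algebraMap k K (g i1) ≠ 0 := by
    rw [Ne, map_eq_zero]
    exact hg1
  rw [Algebra.smul_def] at h1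
  rcases h1 with h1 | h1
  · exact mul_ne_zero h7 (h0 i1) h1
  · rw [P.ord_mul h7 (h0 i1), P.ord_const hg1, h i1] at h1
    omega

/-- functions vanishing to order at least `N` -/
def II (P : Place k K) (N : ℤ) : Submodule k K where
  carrier := {f | Ge P N f}
  add_mem' := fun ha hb => ha.add hb
  zero_mem' := Ge.zero
  smul_mem' := fun c f hf => by
    rw [Algebra.smul_def]
    simpa using (Ge.const (P := P) c).mul hf

theorem mem_II {P : Place k K} {N : ℤ} {f : K} : f ∈ II P N ↔ Ge P N f := Iff.rfl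

/-- the span of the small monomials -/
def TT (k : Type) [Field k] {K : Type} [Field K] [Algebra k K] (s y : K) (m N : ℕ) :
    Submodule k K :=
  Submodule.span k (Set.range fun p : Fin N × Fin m => s ^ (p.1 : ℕ) * y ^ (p.2 : ℕ))

theorem mem_TT {s y : K} {m N i j : ℕ} (hi : i < N) (hj : j < m) : s ^ i * y ^ j ∈ TT k s y m N :=
  Submodule.subset_span ⟨(⟨i, hi⟩, ⟨j, hj⟩), rfl⟩

theorem TT_mono {s y : K} {m N N' : ℕ} (h : N ≤ N') : TT k s y m N ≤ TT k s y m N' := by
  unfold TT
  rw [Submodule.span_le]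
  rintro _ ⟨p, rfl⟩
  exact mem_TT (lt_of_lt_of_le p.1.2 h) p.2.2

theorem mul_mem_TT {s y : K} {m N : ℕ} {t : K} (ht : t ∈ TT k s y m N) :
    s * t ∈ TT k s y m (N + 1) := by
  unfold TT at ht
  induction ht using Submodule.span_induction with
  | mem x hx =>
    obtain ⟨p, rfl⟩ := hx
    have : s * (s ^ (p.1 : ℕ) * y ^ (p.2 : ℕ)) = s ^ ((p.1 : ℕ) + 1) * y ^ (p.2 : ℕ) := by ring
    change s * (s ^ (p.1 : ℕ) * y ^ (p.2 : ℕ)) ∈ _
    rw [this]
    exact mem_TT (Nat.succ_lt_succ p.1.2) p.2.2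
  | zero => rw [mul_zero]; exact zero_mem _
  | add a b _ _ ha hb => rw [mul_add]; exact add_mem ha hb
  | smul c a _ ha => rw [mul_smul_comm]; exact Submodule.smul_mem _ _ ha

theorem finrank_TT (s y : K) (m N : ℕ) : Module.finrank k (TT k s y m N) ≤ N * m := by
  have h := finrank_range_le_card (R := k)
    (fun p : Fin N × Fin m => s ^ (p.1 : ℕ) * y ^ (p.2 : ℕ))
  rw [Fintype.card_prod, Fintype.card_fin, Fintype.card_fin] at h
  exact h

instance (s y : K) (m N : ℕ) : FiniteDimensional k (TT k s y m N) :=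
  FiniteDimensional.span_of_finite k (Set.finite_range _)

section

variable {P : Place k K} {s y : K} {e : ℕ} {m : ℕ} {U : k[X]} {v : K}

/-- one step -/
theorem step (hs0 : Ge P 0 s) (hy : Ge P 1 y) (hU : U.coeff 0 ≠ 0)
    (hv : v ∈ Algebra.adjoin k {s, y}) (hrel : y ^ m * aeval y U = s * v) (M : ℕ) {f : K}
    (hf : f ∈ Algebra.adjoin k {s, y}) :
    ∃ t ∈ TT k s y m 1, ∃ f' ∈ Algebra.adjoin k {s, y}, Ge P M (f - t - s * f') := by
  have hy0 : Ge P 0 y := hy.mono (by norm_num)
  -- the inverse of the unit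
  obtain ⟨b, hb⟩ : ∃ b : K, b = algebraMap k K (-(U.coeff 0)⁻¹) * (y * aeval y U.divX) := ⟨_, rfl⟩
  have hbR : b ∈ Algebra.adjoin k {s, y} := by
    rw [hb]
    exact mul_mem (Subalgebra.algebraMap_mem _ _) (mul_mem (y_mem_adj _ _) (aeval_mem_adj _ _ _))
  have hb1 : Ge P 1 b := by
    rw [hb]
    have h1 := (Ge.const (P := P) (-(U.coeff 0)⁻¹)).mul
      (hy.mul (reg_adj P hs0 hy0 (aeval_mem_adj s y U.divX)))
    simpa using h1
  have hUb : aeval y U = algebraMap k K (U.coeff 0) * (1 - b) := by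
    have h1 : U = X * U.divX + C (U.coeff 0) := (X_mul_divX_add U).symm
    have h2 : algebraMap k K (U.coeff 0) ≠ 0 := by
      rw [Ne, map_eq_zero]
      exact hU
    conv_lhs => rw [h1]
    rw [map_add, map_mul, aeval_X, aeval_C, hb, map_neg, map_inv₀]
    field_simp
    ring
  -- multiples of `y ^ m`
  have key : ∀ z ∈ Algebra.adjoin k {s, y}, ∃ f' ∈ Algebra.adjoin k {s, y},
      Ge P M (y ^ m * z - s * f') := by
    intro z hz
    refine ⟨algebraMap k K (U.coeff 0)⁻¹ * z * (∑ l ∈ Finset.range M, b ^ l) * v, ?_, ?_⟩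
    · exact mul_mem (mul_mem (mul_mem (Subalgebra.algebraMap_mem _ _) hz)
        (sum_mem fun l _ => pow_mem hbR l)) hv
    · have h2 : algebraMap k K (U.coeff 0) ≠ 0 := by
        rw [Ne, map_eq_zero]
        exact hU
      have h3 : y ^ m * z - s * (algebraMap k K (U.coeff 0)⁻¹ * z *
          (∑ l ∈ Finset.range M, b ^ l) * v) = y ^ m * z * b ^ M := by
        have h4 : (1 - b) * ∑ l ∈ Finset.range M, b ^ l = 1 - b ^ M := mul_neg_geom_sum b M
        have h5 : s * v = y ^ m * (algebraMap k K (U.coeff 0) * (1 - b)) := by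
          rw [← hUb, hrel]
        rw [map_inv₀]
        calc y ^ m * z - s * ((algebraMap k K (U.coeff 0))⁻¹ * z *
              (∑ l ∈ Finset.range M, b ^ l) * v)
            = y ^ m * z - (algebraMap k K (U.coeff 0))⁻¹ * z *
              (∑ l ∈ Finset.range M, b ^ l) * (s * v) := by ring
          _ = y ^ m * z - ((algebraMap k K (U.coeff 0))⁻¹ * algebraMap k K (U.coeff 0)) *
              (z * y ^ m) * ((1 - b) * ∑ l ∈ Finset.range M, b ^ l) := by
            rw [h5]; ring
          _ = y ^ m * z * b ^ M := by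
            rw [h4, inv_mul_cancel₀ h2]; ring
      rw [h3]
      have h6 := ((hy0.pow m).mul (reg_adj P hs0 hy0 hz)).mul (hb1.pow M)
      simpa using h6
  -- powers of `y`
  have hpow : ∀ j : ℕ, ∃ t ∈ TT k s y m 1, ∃ f' ∈ Algebra.adjoin k {s, y},
      Ge P M (y ^ j - t - s * f') := by
    intro j
    by_cases hj : j < m
    · refine ⟨y ^ j, ?_, 0, zero_mem _, ?_⟩
      · have := mem_TT (k := k) (s := s) (y := y) (i := 0) (N := 1) one_pos hj
        simpa using this
      · simpa using Ge.zero (P := P)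
    · push Not at hj
      obtain ⟨f', hf', h⟩ := key (y ^ (j - m)) (pow_mem (y_mem_adj _ _) _)
      refine ⟨0, zero_mem _, f', hf', ?_⟩
      rw [sub_zero]
      rwa [← pow_add, Nat.add_sub_cancel' hj] at h
  -- polynomials in `y`
  have hpoly : ∀ q : k[X], ∃ t ∈ TT k s y m 1, ∃ f' ∈ Algebra.adjoin k {s, y},
      Ge P M (aeval y q - t - s * f') := by
    intro q
    induction q using Polynomial.induction_on' with
    | add p q hp hq =>
      obtain ⟨t, ht, f', hf', h⟩ := hp
      obtain ⟨t2, ht2, f2, hf2, h2⟩ := hq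
      refine ⟨t + t2, add_mem ht ht2, f' + f2, add_mem hf' hf2, ?_⟩
      have := h.add h2
      rw [map_add]
      convert this using 1
      ring
    | monomial n a =>
      obtain ⟨t, ht, f', hf', h⟩ := hpow n
      refine ⟨a • t, Submodule.smul_mem _ _ ht, algebraMap k K a * f',
        mul_mem (Subalgebra.algebraMap_mem _ _) hf', ?_⟩
      have h2 := (Ge.const (P := P) a).mul h
      rw [zero_add] at h2
      rw [aeval_monomial, Algebra.smul_def]
      convert h2 using 1
      ring
  obtain ⟨q, f1, hf1, rfl⟩ := adj_two hf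
  obtain ⟨t, ht, f', hf', h⟩ := hpoly q
  refine ⟨t, ht, f' + f1, add_mem hf' hf1, ?_⟩
  convert h using 1
  ring

/-- approximation by small monomials -/
theorem approx_TT (hs : Ge P e s) (hy : Ge P 1 y) (hU : U.coeff 0 ≠ 0)
    (hv : v ∈ Algebra.adjoin k {s, y}) (hrel : y ^ m * aeval y U = s * v) (N : ℕ) :
    ∀ f ∈ Algebra.adjoin k {s, y}, ∃ t ∈ TT k s y m N, Ge P ((e * N : ℕ) : ℤ) (f - t) := by
  have hs0 : Ge P 0 s := hs.mono (by positivity)
  have hy0 : Ge P 0 y := hy.mono (by norm_num)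
  induction N with
  | zero =>
    intro f hf
    refine ⟨0, zero_mem _, ?_⟩
    rw [sub_zero, mul_zero]
    exact reg_adj P hs0 hy0 hf
  | succ N ih =>
    intro f hf
    obtain ⟨t, ht, f', hf', h⟩ := step hs0 hy hU hv hrel (e * (N + 1)) hf
    obtain ⟨t', ht', h'⟩ := ih f' hf'
    refine ⟨t + s * t', add_mem (TT_mono (by omega) ht) (mul_mem_TT ht'), ?_⟩
    have h2 : Ge P ((e * (N + 1) : ℕ) : ℤ) (s * (f' - t')) := by
      refine (hs.mul h').mono ?_
      push_cast
      nlinarith
    have h3 := h.add h2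
    convert h3 using 1
    ring

/-- the multiplicity is at least the ramification index -/
theorem le_mult (hs0 : s ≠ 0) (hs : P.ord s = e) (he : 1 ≤ e) (hy : Ge P 1 y)
    (hU : U.coeff 0 ≠ 0)
    (hv : v ∈ Algebra.adjoin k {s, y}) (hrel : y ^ m * aeval y U = s * v)
    {f g : K} (hf : f ∈ Algebra.adjoin k {s, y}) (hg : g ∈ Algebra.adjoin k {s, y})
    (hf0 : f ≠ 0) (hg0 : g ≠ 0) (hfg : P.ord f = P.ord g + 1) : e ≤ m := by
  by_contra hlt
  push Not at hlt
  have hsG : Ge P e s := Or.inr hs.ge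
  have hsr : Ge P 0 s := hsG.mono (by positivity)
  have hy0 : Ge P 0 y := hy.mono (by norm_num)
  have hgr : 0 ≤ P.ord g := (reg_adj P hsr hy0 hg).resolve_left hg0
  obtain ⟨a, ha⟩ : ∃ a : ℕ, P.ord g = a := ⟨(P.ord g).toNat, by omega⟩
  set G : ℕ := (e - 1) * a with hG
  set N : ℕ := G + 1 with hN
  have happ := approx_TT (P := P) (e := e) hsG hy hU hv hrel N
  -- the functions
  let r : ℕ → K := fun i => s ^ (i / e) * (f ^ (i % e) * g ^ (e - 1 - i % e))
  have hr : ∀ i, r i ∈ Algebra.adjoin k {s, y} := fun i =>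
    mul_mem (pow_mem (s_mem_adj _ _) _) (mul_mem (pow_mem hf _) (pow_mem hg _))
  have hr0 : ∀ i, r i ≠ 0 := fun i =>
    mul_ne_zero (pow_ne_zero _ hs0) (mul_ne_zero (pow_ne_zero _ hf0) (pow_ne_zero _ hg0))
  have hro : ∀ i, P.ord (r i) = (G : ℤ) + (i : ℕ) := by
    intro i
    have h1 : i % e < e := Nat.mod_lt _ he
    have h2 : e * (i / e) + i % e = i := Nat.div_add_mod i e
    simp only [r]
    rw [P.ord_mul (pow_ne_zero _ hs0) (mul_ne_zero (pow_ne_zero _ hf0) (pow_ne_zero _ hg0)),
      P.ord_mul (pow_ne_zero _ hf0) (pow_ne_zero _ hg0), P.ord_pow, P.ord_pow, P.ord_pow, hs,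
      hfg, ha, hG]
    have h3 : ((e - 1 - i % e : ℕ) : ℤ) = (e : ℤ) - 1 - ((i % e : ℕ) : ℤ) := by omega
    have h4 : ((i / e : ℕ) : ℤ) * (e : ℤ) + ((i % e : ℕ) : ℤ) = (i : ℤ) := by
      have := congrArg (Nat.cast (R := ℤ)) h2
      push_cast at this ⊢
      linarith
    have h5 : (((e - 1) * a : ℕ) : ℤ) = ((e : ℤ) - 1) * a := by
      rw [Nat.cast_mul, Nat.cast_sub he]
      simp
    rw [h3, h5]
    linear_combination h4
  choose t ht ht' using fun i : ℕ => happ (r i) (hr i)
  set L : ℕ := e * N - G with hL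
  have hGN : G < e * N := by
    rw [hN]
    nlinarith
  have hto : ∀ i : Fin L, t i ≠ 0 ∧ P.ord (t i) = (G : ℤ) + (i : ℕ) := by
    intro i
    have hi : G + (i : ℕ) < e * N := by omega
    by_cases h1 : r i - t i = 0
    · have h2 : t i = r i := (sub_eq_zero.1 h1).symm
      rw [h2]
      exact ⟨hr0 i, hro i⟩
    · have h2 := (ht' i).resolve_left h1
      have h3 : P.ord (r i) < P.ord (-(r i - t i)) := by
        rw [P.ord_neg, hro i]
        have : ((G + (i : ℕ) : ℕ) : ℤ) < ((e * N : ℕ) : ℤ) := by exact_mod_cast hi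
        push_cast at this h2 ⊢
        omega
      have h4 := P.ord_add_eq (hr0 i) (neg_ne_zero.2 h1) h3
      have h5 : r i + -(r i - t i) = t i := by ring
      rw [h5, hro i] at h4
      exact h4
  have hind : LinearIndependent k (fun i : Fin L => t i) :=
    linInd_of_ord P G (fun i : Fin L => t i) (fun i => (hto i).1) (fun i => (hto i).2)
  have hind' : LinearIndependent k (fun i : Fin L => (⟨t i, ht i⟩ : TT k s y m N)) := by
    refine LinearIndependent.of_comp (TT k s y m N).subtype ?_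
    exact hind
  have hcard := hind'.fintype_card_le_finrank
  rw [Fintype.card_fin] at hcard
  have hfin := hcard.trans (finrank_TT (k := k) s y m N)
  have h1 : e * N ≤ N * m + G := by omega
  have h2 : N * m ≤ N * (e - 1) := Nat.mul_le_mul_left _ (by omega)
  have h3 : N * (e - 1) + N = e * N := by
    obtain ⟨e', rfl⟩ : ∃ e', e = e' + 1 := ⟨e - 1, by omega⟩
    rw [Nat.add_sub_cancel]
    ring
  omega

end

end Pool.Agent.N966.HB
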