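import Pool.Agent.N966.HB.Loc

/-!
# The ramification index and the partial derivative: conclusion
-/

set_option autoImplicit false

open Polynomial FF Pool.Agent.W603.LV

namespace Pool.Agent.N966.HB

variable {k K : Type} [Field k] [Field K] [Algebra k K]

/-- dividing a polynomial in two functions by `x - c` -/
theorem E2_split (x θ : K) (c a : k) (H : k[X][X]) :
    ∃ v ∈ Algebra.adjoin k {x - algebraMap k K c, θ - algebraMap k K a},
      E2 x θ H = aeval θ (H.map (evalRingHom c)) + (x - algebraMap k K c) * v := by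
  set s := x - algebraMap k K c with hs
  set y := θ - algebraMap k K a with hy
  have hx : x ∈ Algebra.adjoin k {s, y} := by
    have : x = s + algebraMap k K c := by rw [hs]; ring
    rw [this]
    exact add_mem (s_mem_adj _ _) (Subalgebra.algebraMap_mem _ _)
  have hθ : θ ∈ Algebra.adjoin k {s, y} := by
    have : θ = y + algebraMap k K a := by rw [hy]; ring
    rw [this]
    exact add_mem (y_mem_adj _ _) (Subalgebra.algebraMap_mem _ _)
  have hmem : ∀ (z : K), z ∈ Algebra.adjoin k {s, y} → ∀ q : k[X],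
      aeval z q ∈ Algebra.adjoin k {s, y} := by
    intro z hz q
    have h1 : Algebra.adjoin k {z} ≤ Algebra.adjoin k {s, y} :=
      Algebra.adjoin_le (by simpa using hz)
    exact h1 (aeval_mem_adjoin_singleton k z)
  induction H using Polynomial.induction_on' with
  | add p q hp hq =>
    obtain ⟨v, hv, h⟩ := hp
    obtain ⟨w, hw, h'⟩ := hq
    refine ⟨v + w, add_mem hv hw, ?_⟩
    rw [map_add, h, h', Polynomial.map_add, map_add]
    ring
  | monomial n p =>
    obtain ⟨r, hr⟩ := X_sub_C_dvd_sub_C_eval (a := c) (p := p)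
    refine ⟨aeval x r * θ ^ n, mul_mem (hmem x hx r) (pow_mem hθ n), ?_⟩
    have h1 := congrArg (aeval x) hr
    rw [map_sub, map_mul, map_sub, aeval_X, aeval_C, aeval_C] at h1
    rw [E2_monomial, Polynomial.map_monomial, aeval_monomial, coe_evalRingHom]
    have h2 : aeval x p = algebraMap k K (eval c p) + s * aeval x r := by
      rw [hs]
      linear_combination h1
    rw [h2]
    ring

/-- **the local inequality** -/
theorem loc {x θ : K} (hx : Transcendental k x)
    (hgen : IntermediateField.adjoin k {x, θ} = ⊤) {G : k[X][X]} (hG : E2 x θ G = 0)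
    (P : Place k K) (hθ0 : Ge P 0 θ) {c a : k}
    (hc : 0 < P.ord (x - algebraMap k K c)) (ha : Ge P 1 (θ - algebraMap k K a))
    (hGc : G.map (evalRingHom c) ≠ 0) :
    Ge P (P.ord (x - algebraMap k K c) - 1) (E2 x θ (derivative G)) := by
  obtain ⟨s, hs⟩ : ∃ s, s = x - algebraMap k K c := ⟨_, rfl⟩
  obtain ⟨y, hy⟩ : ∃ y, y = θ - algebraMap k K a := ⟨_, rfl⟩
  rw [← hs] at hc ⊢
  rw [← hy] at ha
  have hs0 : s ≠ 0 := by
    rintro rfl
    rw [P.ord_zero] at hc
    exact lt_irrefl _ hc
  obtain ⟨e, he⟩ : ∃ e : ℕ, P.ord s = e := ⟨(P.ord s).toNat, by omega⟩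
  have he1 : 1 ≤ e := by omega
  have hsr : Ge P 0 s := Or.inr hc.le
  have hyr : Ge P 0 y := ha.mono (by norm_num)
  have hxr : Ge P 0 x := by
    have : x = s + algebraMap k K c := by rw [hs]; ring
    rw [this]
    exact hsr.add (Ge.const c)
  -- generation
  have hle : Algebra.adjoin k {x, θ} ≤ Algebra.adjoin k {s, y} := by
    refine Algebra.adjoin_le ?_
    rintro z (rfl | hz)
    · have : z = s + algebraMap k K c := by rw [hs]; ring
      rw [this]
      exact add_mem (s_mem_adj _ _) (Subalgebra.algebraMap_mem _ _)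
    · rw [Set.mem_singleton_iff] at hz
      subst hz
      have : z = y + algebraMap k K a := by rw [hy]; ring
      rw [this]
      exact add_mem (y_mem_adj _ _) (Subalgebra.algebraMap_mem _ _)
  obtain ⟨π, hπ0, hπ⟩ := P.surj
  obtain ⟨f, hf, g, hg, hfg⟩ : ∃ f ∈ Algebra.adjoin k {s, y}, ∃ g ∈ Algebra.adjoin k {s, y},
      π = f / g := by
    have h1 : π ∈ IntermediateField.adjoin k {x, θ} := by rw [hgen]; trivial
    rw [IntermediateField.mem_adjoin_iff_div] at h1
    obtain ⟨f, hf, g, hg, h⟩ := h1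
    exact ⟨f, hle hf, g, hle hg, h⟩
  have hf0 : f ≠ 0 := by
    rintro rfl
    rw [zero_div] at hfg
    exact hπ0 hfg
  have hg0 : g ≠ 0 := by
    rintro rfl
    rw [div_zero] at hfg
    exact hπ0 hfg
  have hord : P.ord f = P.ord g + 1 := by
    rw [hfg, P.ord_div hf0 hg0] at hπ
    omega
  -- the polynomial over the residue field
  obtain ⟨gc, hgc⟩ : ∃ gc, gc = G.map (evalRingHom c) := ⟨_, rfl⟩
  rw [← hgc] at hGc
  obtain ⟨m, hm⟩ : ∃ m, m = rootMultiplicity a gc := ⟨_, rfl⟩
  obtain ⟨U1, hU1, hU1'⟩ := exists_eq_pow_rootMultiplicity_mul_and_not_dvd gc hGc a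
  rw [← hm] at hU1
  have hθy : θ = y + algebraMap k K a := by rw [hy]; ring
  obtain ⟨U, hU⟩ : ∃ U, U = U1.comp (X + C a) := ⟨_, rfl⟩
  have hUy : aeval y U = aeval θ U1 := by
    rw [hU, aeval_comp, map_add, aeval_X, aeval_C, ← hθy]
  have hU0 : U.coeff 0 ≠ 0 := by
    rw [coeff_zero_eq_eval_zero, hU, eval_comp, eval_add, eval_X, eval_C, zero_add]
    intro h0
    exact hU1' (dvd_iff_isRoot.2 h0)
  obtain ⟨v, hv, hGv⟩ := E2_split x θ c a G
  rw [← hs, ← hy] at hv
  rw [hG, ← hgc, ← hs] at hGv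
  have hrel : y ^ m * aeval y U = s * (-v) := by
    rw [hUy]
    have h1 : aeval θ gc = y ^ m * aeval θ U1 := by
      conv_lhs => rw [hU1]
      rw [map_mul, map_pow, map_sub, aeval_X, aeval_C, ← hy]
    rw [h1] at hGv
    linear_combination -hGv
  have hem : e ≤ m := le_mult (P := P) hs0 he he1 ha hU0 (neg_mem hv) hrel hf hg hf0 hg0 hord
  -- the derivative
  obtain ⟨w, hw, hGw⟩ := E2_split x θ c a (derivative G)
  rw [← hs, ← hy] at hw
  rw [← hs, ← derivative_map, ← hgc] at hGw
  obtain ⟨m', rfl⟩ : ∃ m', m = m' + 1 := ⟨m - 1, by omega⟩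
  have hdg : aeval θ (derivative gc) = y ^ m' * (((m' + 1 : ℕ) : K) * aeval θ U1 +
      y * aeval θ (derivative U1)) := by
    conv_lhs => rw [hU1]
    rw [derivative_mul, derivative_X_sub_C_pow, Nat.add_sub_cancel]
    simp only [map_add, map_mul, map_pow, map_sub, aeval_X, aeval_C, map_natCast]
    rw [← hy]
    ring
  rw [hGw, hdg]
  have h1 : Ge P (m' : ℤ) (y ^ m' * (((m' + 1 : ℕ) : K) * aeval θ U1 +
      y * aeval θ (derivative U1))) := by
    have h2 : Ge P 0 (((m' + 1 : ℕ) : K) * aeval θ U1 + y * aeval θ (derivative U1)) := by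
      refine Ge.add ?_ ?_
      · simpa using (Ge.natCast (P := P) (m' + 1)).mul (ge_aeval P hθ0 U1)
      · simpa using hyr.mul (ge_aeval P hθ0 (derivative U1))
    simpa using (ha.pow m').mul h2
  have h3 : Ge P (e : ℤ) (s * w) := by
    have h4 : Ge P (e : ℤ) s := Or.inr he.ge
    simpa using h4.mul (reg_adj P hsr hyr hw)
  rw [he]
  exact (h1.mono (by omega)).add (h3.mono (by omega))

/-- the reversed polynomial -/
theorem E2_sum (x z : K) {n : ℕ} {H : k[X][X]} (hH : H.natDegree ≤ n) :
    E2 x z H = ∑ j ∈ Finset.range (n + 1), aeval x (H.coeff j) * z ^ j := by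
  rw [E2_apply, eval₂_eq_sum_range' _ (Nat.lt_succ_of_le hH)]
  rfl

theorem E2_der_sum (x z : K) {n : ℕ} {H : k[X][X]} (hH : H.natDegree ≤ n) :
    z * E2 x z (derivative H) =
      ∑ j ∈ Finset.range (n + 1), (j : K) * (aeval x (H.coeff j) * z ^ j) := by
  have h1 : (derivative H).natDegree ≤ n := (natDegree_derivative_le H).trans (by omega)
  rw [E2_sum x z h1, Finset.sum_range_succ, coeff_derivative,
    coeff_eq_zero_of_natDegree_lt (n := n + 1) (by omega), zero_mul, map_zero, zero_mul, add_zero,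
    Finset.sum_range_succ' (fun j : ℕ => (j : K) * (aeval x (H.coeff j) * z ^ j)), Nat.cast_zero,
    zero_mul, add_zero, Finset.mul_sum]
  refine Finset.sum_congr rfl fun j _ => ?_
  rw [coeff_derivative, map_mul, map_add, map_natCast, map_one]
  push_cast
  ring

theorem E2_reflect {x θ : K} (hθ : θ ≠ 0) {n : ℕ} {G : k[X][X]} (hn : G.natDegree ≤ n)
    (hG : E2 x θ G = 0) :
    E2 x θ⁻¹ (reflect n G) = 0 ∧
      θ⁻¹ * E2 x θ⁻¹ (derivative (reflect n G)) * θ ^ n = - (θ * E2 x θ (derivative G)) := by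
  have hn' : (reflect n G).natDegree ≤ n := by
    rw [natDegree_le_iff_coeff_eq_zero]
    intro N hN
    rw [coeff_reflect, revAt_eq_self_of_lt hN]
    exact coeff_eq_zero_of_natDegree_lt (by omega)
  have hc : ∀ j ∈ Finset.range (n + 1), (reflect n G).coeff j = G.coeff (n - j) := by
    intro j hj
    rw [coeff_reflect, revAt_le (by rw [Finset.mem_range] at hj; omega)]
  have hG' := hG
  rw [E2_sum x θ hn] at hG'
  constructor
  · rw [E2_sum x θ⁻¹ hn']
    have h1 : (∑ j ∈ Finset.range (n + 1), aeval x ((reflect n G).coeff j) * θ⁻¹ ^ j) * θ ^ n =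
        ∑ j ∈ Finset.range (n + 1), aeval x (G.coeff j) * θ ^ j := by
      rw [← Finset.sum_range_reflect (fun j => aeval x (G.coeff j) * θ ^ j), Finset.sum_mul]
      refine Finset.sum_congr rfl fun j hj => ?_
      rw [hc j hj]
      have hj' : j ≤ n := by rw [Finset.mem_range] at hj; omega
      have e1 : n + 1 - 1 - j = n - j := by omega
      rw [e1]
      have e2 : θ ^ n = θ ^ (n - j) * θ ^ j := by rw [← pow_add, Nat.sub_add_cancel hj']
      rw [e2, inv_pow]
      field_simp
    rw [hG'] at h1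
    exact (mul_eq_zero.1 h1).resolve_right (pow_ne_zero _ hθ)
  · rw [E2_der_sum x θ⁻¹ hn', E2_der_sum x θ hn]
    have h1 : (∑ j ∈ Finset.range (n + 1), (j : K) *
        (aeval x ((reflect n G).coeff j) * θ⁻¹ ^ j)) * θ ^ n =
        ∑ j ∈ Finset.range (n + 1), ((n - j : ℕ) : K) * (aeval x (G.coeff j) * θ ^ j) := by
      rw [← Finset.sum_range_reflect
        (fun j => ((n - j : ℕ) : K) * (aeval x (G.coeff j) * θ ^ j)), Finset.sum_mul]
      refine Finset.sum_congr rfl fun j hj => ?_
      rw [hc j hj]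
      have hj' : j ≤ n := by rw [Finset.mem_range] at hj; omega
      have e1 : n + 1 - 1 - j = n - j := by omega
      have e3 : n - (n - j) = j := by omega
      rw [e1, e3]
      have e2 : θ ^ n = θ ^ (n - j) * θ ^ j := by rw [← pow_add, Nat.sub_add_cancel hj']
      rw [e2, inv_pow]
      field_simp
    rw [h1]
    have h2 : ∑ j ∈ Finset.range (n + 1), ((n - j : ℕ) : K) * (aeval x (G.coeff j) * θ ^ j) =
        (n : K) * (∑ j ∈ Finset.range (n + 1), aeval x (G.coeff j) * θ ^ j) -
          ∑ j ∈ Finset.range (n + 1), (j : K) * (aeval x (G.coeff j) * θ ^ j) := by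
      rw [Finset.mul_sum, ← Finset.sum_sub_distrib]
      refine Finset.sum_congr rfl fun j hj => ?_
      have hj' : j ≤ n := by rw [Finset.mem_range] at hj; omega
      rw [Nat.cast_sub hj']
      ring
    rw [h2, hG', mul_zero, zero_sub]

end Pool.Agent.N966.HB
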